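import Pool.Agent.Run7.h384.BU.Inv

/-!
# MP_f3836a_nt: the order of the zeta function at `s = 0` and blow-ups of projective spaces

All schemes `X`, `Y`, `B` are regular, connected and projective over the integers; they may be flat or
schemes over a finite field. Let `A m k X` be rational vector spaces with known properties of the higher
Chow groups `CH_m(X, k) ⊗ ℚ` (cycles of dimension `m + k` on `X × Δ^k`); for `X` of dimension `d` they are
`H^(2(d - m) - k)(X, ℚ(d - m))`, so for `m = 0` the groups `H^(2d - k)(X, ℚ(d))` of the problem.
`C.Soule n X`: the `A n k X` are finite-dimensional and almost all zero, the zeta function of `X` has a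
meromorphic continuation to a half-plane which contains `n`, and its order at `s = n` is
`∑ (-1)^(k + 1) dim A n k X`. For `n = 0` and flat `X` these are the assumptions (i), (ii) and the conclusion
of the question.

Theorem.
1. For a scheme `Y` (and any function `g`) the conjecture for `Y` at ALL negative integers is equivalent
   to the conjecture at the single point `s = 0` for the blow-ups of the projective spaces `P^N` over `ℤ`
   in the centres `Y × P^r`, `r ≥ 0`, `N ≥ g r`. These blow-ups are regular, flat and projective over `ℤ`,
   so they belong to the question, also if `Y` is a scheme over a finite field.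
2. A positive answer to the question as posed implies the conjecture at all negative integers for
   all `Y`, flat or not, which satisfy the assumptions (i), (ii) at the negative integers.
3. If the centre `Y` satisfies the conjecture at all integers `m < n`, then the conjecture at `s = n` is true
   for `X` if and only if it is true for the blow-up of `X` in `Y`.
4. Let `S` be a set of flat schemes such that every flat scheme can be linked to an element of `S` by blow-ups
   and blow-downs in regular centres. Then the conjecture at `s = 0` for all flat schemes is equivalent to
   the conjecture at `s = 0` for the elements of `S` and for the blow-ups of the projective spaces.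

Proof. Let `D(k)` be the defect (order plus Euler characteristic) of `Y` at `s = -k`, `k ≥ 1`. The defect at
`s = 0` of the blow-up of `P^N` in `Y` is `D(1) + … + D(c - 1)`, where `c` is the codimension. For `Y × P^r` in
place of `Y` the number `D(k)` is replaced by `D(k) + … + D(k + r)`. If all these sums are zero for all `r` and all
large `c`, then `D = 0`. The continuation of the zeta function of `Y` is obtained from quotients of the zeta
functions of two blow-ups of consecutive codimensions.
-/

set_option autoImplicit false

open CategoryTheory AlgebraicGeometry Pool.Agent.Run7.h384.BU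

namespace Pool.Agent.Results.MP_f3836a_nt.BlowUpsOfProjectiveSpace

/-- **Theorem.** (1) For `Y` regular, connected and projective over `ℤ`, the conjecture of Soulé for `Y` at
all negative integers is equivalent to the conjecture at `s = 0` for the blow-ups of `P^N` in `Y × P^r`,
`N ≥ g r`. (2) If assumptions (i), (ii) imply the formula at `s = 0` for all flat `X`, then they imply
the formula at all negative integers for all `Y`. (3) Invariance of the conjecture at `s = n` under
blow-ups in centres which satisfy it at all `m < n`. (4) The conjecture at `s = 0` for all flat `X` is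
equivalent to that for the blow-ups of the projective spaces and for representatives of the classes of
flat schemes modulo blow-ups. -/
theorem result (C : Chow) (hC : C.Known) :
    (∀ (Y : Scheme.{0}) (g : ℕ → ℕ), RegProj Y → ((∀ n : ℤ, n < 0 → C.Soule n Y) ↔
      ∀ (r N : ℕ) (B : Scheme.{0}), g r ≤ N → BlowUpIn (PS N) (timesPS Y r) B → C.Soule 0 B)) ∧
    ((∀ X : Scheme.{0}, RegProj X → FlatZ X → C.FinRank 0 X →
        ∀ v : ℤ, Ord (zeta X) 0 v → v = -C.chi 0 X) →
      ∀ Y : Scheme.{0}, RegProj Y → (∀ n : ℤ, n < 0 → C.FinRank n Y ∧ ∃ v : ℤ, Ord (zeta Y) n v) →
        ∀ n : ℤ, n < 0 → C.Soule n Y) ∧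
    (∀ (X Y B : Scheme.{0}) (n : ℤ), BlowUpIn X Y B → (∀ m : ℤ, m < n → C.Soule m Y) →
      (C.Soule n X ↔ C.Soule n B)) ∧
    (∀ S : Set Scheme.{0}, (∀ X ∈ S, RegProj X ∧ FlatZ X) →
      (∀ X : Scheme.{0}, RegProj X → FlatZ X → ∃ X' ∈ S, Linked X X') →
      ((∀ X : Scheme.{0}, RegProj X → FlatZ X → C.Soule 0 X) ↔
        (∀ (N : ℕ) (Y B : Scheme.{0}), BlowUpIn (PS N) Y B → C.Soule 0 B) ∧
          ∀ X ∈ S, C.Soule 0 X)) :=
  ⟨fun _ g hY => pointwise hC hY g, fun h _ hY hf => posed hC h hY hf,
    fun _ _ _ n hB hY => soule_blowUp hC hB n hY, fun S hS hS2 => classes hC S hS hS2⟩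

end Pool.Agent.Results.MP_f3836a_nt.BlowUpsOfProjectiveSpace
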