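import Pool.Agent.Run7.h902.CsOrd

/-!
# MP_f3836a_nt: the order of the zeta function at `s = 0` and moduli spaces of configurations of points

For a scheme `X` of finite type over `ℤ` let `zeta X` be the Euler product over its closed points, and let
`A k X = CH_0(X, k) ⊗ ℚ` (cycles of dimension `k` on `X × Δ^k`); if `X` is regular and connected of
dimension `d` then `A k X = CH^d(X, k) ⊗ ℚ = H^(2 d - k)(X, ℚ(d))`. The hypothesis `C : Cycles` collects
three known properties: invariance under isomorphisms, vanishing for the empty scheme, and the long
exact localization sequence (Bloch, Levine).

`C.Soule 0 X`: the zeta function of `X` has a meromorphic continuation to a half-plane which contains `0`,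
the spaces `A k X` are finite-dimensional and almost all zero, and
`ord_{s = 0} ζ(X, s) = ∑ (-1)^(k + 1) dim A k X`. For regular, flat and projective `X` this consists of the
assumptions (i), (ii) of the problem and the conclusion.

`FrameModuli ℤ A`: `Spec A` is a moduli space over `ℤ` of configurations of points in the projective plane:
the points `(1:0:0)`, `(0:1:0)`, `(0:0:1)`, `(1:1:1)` and finitely many points moving in given Schubert cells
`(1:x:y)`, `(0:1:y)`, `(0:0:1)`, such that every triple of points is prescribed to be collinear
or not collinear: the realization space over `ℤ` of a matroid of rank `3` modulo `PGL_3`.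

Theorem: for every `d`, the assertions for all schemes of finite type over `ℤ` of dimension at most `d` are
equivalent to the assertions for the integral realization spaces of dimension at most `d` which are
smooth over `ℤ` or over a prime field.

Proof. The assertion passes from a closed part and the open complement to the scheme, because zeta
functions are multiplicative and Euler characteristics are additive; and every integral scheme of finite
type over `ℤ` has a dense open subscheme which is ISOMORPHIC to such a realization space (an exact form of
the universality theorem of Mnev over `ℤ`, proved in `CuRing`, `CuGad`, `CuMain`).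
-/

set_option autoImplicit false

open CategoryTheory AlgebraicGeometry Pool.Agent.Y116.UV Pool.Agent.Run7.h902

namespace Pool.Agent.Results.MP_f3836a_nt.ConfigurationsByDimension

/-- **Theorem.** For every `d` the following are equivalent: (1) for all schemes `X` of finite type over `ℤ`
of dimension at most `d` the zeta function continues to a half-plane containing `0`, the spaces
`CH_0(X, k) ⊗ ℚ` are finite-dimensional, almost all zero, and
`ord_{s = 0} ζ(X, s) = ∑ (-1)^(k + 1) dim CH_0(X, k) ⊗ ℚ`; (2) the same for the integral moduli spaces of
configurations of dimension at most `d`, smooth over `ℤ` or over a prime field. -/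
theorem result (C : Cs.Cycles) (d : ℕ) :
    (∀ X : Sch ℤ, FT False X → topologicalKrullDim X.left ≤ d → C.Soule 0 X) ↔
    ∀ (A : Type) [CommRing A] [Algebra ℤ A] [Algebra.FiniteType ℤ A], IsDomain A →
      Cu.SmoothZ A → Cx.FrameModuli ℤ A → ringKrullDim A ≤ d → C.Soule 0 (aff ℤ A) :=
  Cs.soule_dim C 0 d

end Pool.Agent.Results.MP_f3836a_nt.ConfigurationsByDimension
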