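import Pool.Agent.Run7.h570.GH.Ord

/-!
# MP_f3836a_nt: orders of zeta functions, motivic cohomology and graph hypersurfaces

For a scheme `X` of finite type over `ℤ` let `eulerProduct X` be the Euler product over its closed points,
and let `A m k X = CH_m(X, k) ⊗ ℚ` (cycles of dimension `m + k` on `X × Δ^k`). If `X` is regular and
connected of dimension `d` then `A 0 k X = CH^d(X, k) ⊗ ℚ = H^(2 d - k)(X, ℚ(d))`, and
`A m k X = H^(2 (d - m) - k)(X, ℚ(d - m))`. The hypotheses `IsChow A` and `Line A` of the theorem are known
properties of these groups (Bloch, Levine): localization sequences, the groups of `X × 𝔾_m` and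
`X × 𝔸¹`, and `CH_m(X, k) = 0` for `m > dim X`.

For a finite graph `Γ` the Kirchhoff polynomial `kirchhoff ℤ Γ` is the sum over the spanning trees `T` of
the products of the variables `x_e`, `e ∈ T`; `complement ℤ Γ` is the complement of the hypersurface where
it vanishes, in the affine space over `ℤ` with one coordinate for each edge.

Theorem: the strong form of Soulé's conjecture (meromorphic continuation to `ℂ`, finiteness, and the
formula for the order at all integers `m`) is true for all schemes of finite type over `ℤ` if and only if
it is true for the complements of graph hypersurfaces.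

Finiteness of the spaces `CH_m(X, k) ⊗ ℚ` is not a property of classes in the Grothendieck ring of
schemes, so that this does not follow from the theorem of Belkale and Brosnan on these classes. It
follows from the exact form `Run7.h570.GH.graphs_iff` of that theorem: every scheme of finite type over
`ℤ` is obtained from complements of graph hypersurfaces in finitely many steps, each of which is an
isomorphism, a closed-open decomposition, or the product with an affine line or with `𝔾_m`.
-/

set_option autoImplicit false

open CategoryTheory AlgebraicGeometry Pool.Agent.Y116.UV Pool.Agent.Q282.UZ Run7.h570.GH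

universe w

namespace Pool.Agent.Results.MP_f3836a_nt.GraphHypersurfaces

/-- The Euler product `∏ (1 - N(x)^{-s})⁻¹` over the closed points `x` of `X`. -/
noncomputable def eulerProduct (X : Scheme.{0}) (s : ℂ) : ℂ :=
  ∏' x : {x : X // IsClosed ({x} : Set X)}, (1 - ((Nat.card (X.residueField x.1) : ℂ) ^ (-s)))⁻¹

/-- **The strong form of Soulé's conjecture for `X`**: there is a function `F`, meromorphic on `ℂ`, which
is equal to the Euler product of `X` in some half-plane; for all integers `m` the spaces `A m k X`,
`k ∈ ℤ`, are finite-dimensional and almost all zero (`FinRank`), and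
`ord_{s = m} F = ∑ (-1)^(k + 1) dim A m k X`. -/
def Soule (A : ℤ → ℤ → Sch ℤ → ModuleCat.{w} ℚ) (X : Sch ℤ) : Prop :=
  ∃ F : ℂ → ℂ, MeromorphicOn F Set.univ ∧
    (∃ σ : ℝ, ∀ s : ℂ, σ < s.re → F s = eulerProduct X.left s) ∧
    ∀ m : ℤ, FinRank (A m) X ∧ meromorphicOrderAt F (m : ℂ) =
      ((-∑ᶠ k : ℤ, (k.negOnePow : ℤ) * (Module.finrank ℚ (A m k X) : ℤ) : ℤ) : WithTop ℤ)

/-- **Theorem.** For all families `A m k X` with the known properties of `CH_m(X, k) ⊗ ℚ`: the strong form
of Soulé's conjecture holds for all schemes of finite type over `ℤ` if and only if it holds for the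
complements of graph hypersurfaces. -/
theorem result (A : ℤ → ℤ → Sch ℤ → ModuleCat.{w} ℚ) (hA : IsChow A) (hL : Line A) :
    (∀ X : Sch ℤ, LocallyOfFiniteType X.hom → QuasiCompact X.hom → Soule A X) ↔
      ∀ (n : ℕ) (Γ : SimpleGraph (Fin n)), Soule A (complement ℤ Γ) := by
  refine Iff.trans ⟨fun h X hX => h X hX.1 hX.2, fun h X h1 h2 => h X ⟨h1, h2, fun h => h.elim⟩⟩
    (formula_graphs hA hL)

end Pool.Agent.Results.MP_f3836a_nt.GraphHypersurfaces
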