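import Mathlib
import Pool.Agent.Run7.h508.BR.PtsF
import Pool.Agent.Run7.h508.BR.OCont
import Pool.Agent.Run7.h508.BR.Zero
import Pool.Agent.Run7.h508.BR.Leo2
import Pool.Agent.Run7.h508.BR.Desc
import Pool.Agent.Run7.h508.BR.Val

/-!
# Soulé's conjecture at `s = 0` for the base changes of a scheme and everywhere unramified extensions

Let `X` be a scheme of finite type over the ring of integers of a number field `k`. For number fields
`K ⊇ k` let `X_K` be the base change to `𝓞 K`. If `X` is smooth and projective over `𝓞 k` with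
geometrically connected generic fibre, then all the `X_K` are regular, connected, projective and flat
over `ℤ`, and Soulé's conjecture says that the zeta function of `X_K` has at `s = 0` the order
`∑ (-1)^(i + 1) dim H^(2 d - i)(X_K, ℚ(d))`.

If this is true for one totally complex field `K₀ ⊇ k`, and for every real place `v` of `k` for one
field with real places, all over `v`, then it is true for all `K ⊇ k` if and only if it is true for
the quotients `ζ(X_L, s) / ζ(X_K, s)` in everywhere unramified Galois extensions `L/K` of prime degree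
of totally complex fields `K ⊇ k`, split above a given integer `m`.
-/

set_option autoImplicit false
set_option linter.unusedSectionVars false

namespace Pool.Agent.Results.MP_f3836a_nt.UnramifiedBaseChange

open NumberField IsDedekindDomain AlgebraicGeometry CategoryTheory
open Pool.Agent.Run7.h508.BR (RankFunctor)

/-- The number of the points of `X` over `R` with values in the field `F`, an `R`-algebra by `φ`. -/
noncomputable def pointsIn {R : Type} [CommRing R] {X : Scheme.{0}} (f : X ⟶ Spec (.of R)) {F : Type}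
    [Field F] (φ : R →+* F) : ℕ :=
  Nat.card {g : Spec (.of F) ⟶ X // g ≫ f = Spec.map (CommRingCat.ofHom φ)}

/-- The number of the points of the base change of `X` to `𝓞 K` over the prime `w` of `K` with values
in a field with `N(w) ^ n` elements: the number of the points in `F` is the same for all fields `F`
with `N(w) ^ n` elements and all homomorphisms `φ : 𝓞 K → F` with kernel `w`. -/
noncomputable def points {k : Type} [Field k] [NumberField k] {X : Scheme.{0}}
    (f : X ⟶ Spec (.of (𝓞 k))) {K : Type} [Field K] [NumberField K] [Algebra k K]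
    (w : HeightOneSpectrum (𝓞 K)) (n : ℕ) : ℕ :=
  sSup {c : ℕ | ∃ (F : Type) (_ : Field F) (φ : 𝓞 K →+* F),
    Nat.card F = Ideal.absNorm w.asIdeal ^ n ∧ RingHom.ker φ = w.asIdeal ∧
      c = pointsIn f (φ.comp (algebraMap (𝓞 k) (𝓞 K)))}

/-- The term of `log ζ(X_K, s)` of the pair `(w, n)`. -/
noncomputable def term {k : Type} [Field k] [NumberField k] {X : Scheme.{0}}
    (f : X ⟶ Spec (.of (𝓞 k))) (K : Type) [Field K] [NumberField K] [Algebra k K] (s : ℂ)
    (x : HeightOneSpectrum (𝓞 K) × ℕ+) : ℂ :=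
  points f x.1 x.2 / ((x.2 : ℕ) * (Ideal.absNorm x.1.asIdeal : ℂ) ^ (((x.2 : ℕ) : ℂ) * s))

/-- `log ζ(X_K, s)` -/
noncomputable def logZeta {k : Type} [Field k] [NumberField k] {X : Scheme.{0}}
    (f : X ⟶ Spec (.of (𝓞 k))) (K : Type) [Field K] [NumberField K] [Algebra k K] (s : ℂ) : ℂ :=
  ∑' x : HeightOneSpectrum (𝓞 K) × ℕ+, term f K s x

/-- For some `n > 0` the `n`-th power of the function `exp (l s)`, `Re s > β`, has a meromorphic
continuation to `ℂ`, of order `n r` at `s = 0`. -/
def Order (β : ℝ) (l : ℂ → ℂ) (r : ℤ) : Prop :=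
  ∃ n : ℕ, 0 < n ∧ ∃ Z : ℂ → ℂ, MeromorphicOn Z Set.univ ∧
    (∀ s : ℂ, β < s.re → Z s = Complex.exp (n * l s)) ∧
    meromorphicOrderAt Z 0 = ((n * r : ℤ) : WithTop ℤ)

/-- `∑_{i < N} (-1)^(i + 1) dim D_i(K)`; `D_i` is the functor `K ↦ H^(2 d - i)(X_K, ℚ(d))`. -/
noncomputable def expected {k : Type} [Field k] [NumberField k] (D : ℕ → RankFunctor k) (N : ℕ)
    (K : Type) [Field K] [NumberField K] [Algebra k K] : ℤ :=
  ∑ i ∈ Finset.range N, (-1) ^ (i + 1) * ((D i).rank K : ℤ)

/-- Soulé's conjecture for `X_K` at `s = 0`. -/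
def Soule {k : Type} [Field k] [NumberField k] {X : Scheme.{0}} (f : X ⟶ Spec (.of (𝓞 k)))
    (D : ℕ → RankFunctor k) (N : ℕ) (β : ℝ) (K : Type) [Field K] [NumberField K] [Algebra k K] :
    Prop :=
  Order β (logZeta f K) (expected D N K)

/-- The conjecture for the quotient `ζ(X_L, s) / ζ(X_K, s)`. -/
def SouleQuotient {k : Type} [Field k] [NumberField k] {X : Scheme.{0}}
    (f : X ⟶ Spec (.of (𝓞 k))) (D : ℕ → RankFunctor k) (N : ℕ) (β : ℝ) (K L : Type) [Field K]
    [NumberField K] [Algebra k K] [Field L] [NumberField L] [Algebra k L] : Prop :=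
  Order β (fun s => logZeta f L s - logZeta f K s) (expected D N L - expected D N K)

/-- All inertia groups of `L/K` are trivial, and the decomposition groups of the primes above `m`
are trivial. -/
def UnramifiedSplit (m : ℕ) (K L : Type) [Field K] [Field L] [Algebra K L] : Prop :=
  ∀ P : Ideal (𝓞 L), P.IsMaximal → ∀ g : L ≃ₐ[K] L,
    ((∀ x y : 𝓞 L, (y : L) = g x → y - x ∈ P) → g = 1) ∧
    ((m : 𝓞 L) ∈ P → (∀ x y : 𝓞 L, (y : L) = g x → (y ∈ P ↔ x ∈ P)) → g = 1)

/-- The conjecture for the quotients in the everywhere unramified extensions of prime degree, split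
above `m`, of totally complex fields `K ⊇ k`. -/
def UnramifiedCase {k : Type} [Field k] [NumberField k] {X : Scheme.{0}}
    (f : X ⟶ Spec (.of (𝓞 k))) (D : ℕ → RankFunctor k) (N : ℕ) (β : ℝ) (m : ℕ) : Prop :=
  ∀ (K L : Type) [Field K] [NumberField K] [Field L] [NumberField L] [Algebra k K] [Algebra K L]
    [Algebra k L] [IsScalarTower k K L] [IsGalois K L], IsTotallyComplex K →
    (Module.finrank K L).Prime → UnramifiedSplit m K L → SouleQuotient f D N β K L

/-- The number of the real embeddings of `K` over the embedding `v` of `k`. -/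
noncomputable def realAbove {k : Type} [Field k] (v : k →+* ℂ) (K : Type) [Field K] [Algebra k K] :
    ℕ := Nat.card {χ : K →+* ℂ // ComplexEmbedding.IsReal χ ∧ χ.comp (algebraMap k K) = v}

section proof

open Pool.Agent.Run7.h508.BR

lemma unrSplit_of {m : ℕ} {K L : Type} [Field K] [Field L] [Algebra K L]
    (h : UnrSplit m K L) : UnramifiedSplit m K L := by
  intro P hP g
  refine ⟨fun h1 => (h P hP).1 g fun x => h1 x _ rfl, fun hm h1 => (h P hP).2 hm g fun x =>
    h1 x _ rfl⟩

lemma order_iff {β : ℝ} {l l' : ℂ → ℂ} {r : ℤ} (h : ∀ s : ℂ, β < s.re → l s = l' s) :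
    Order β l r ↔ OWCont β 0 l' r := by
  constructor
  · rintro ⟨n, hn, Z, h1, h2, h3⟩
    refine ⟨n, hn, n * r, by push_cast; rfl, Z, h1, fun s hs => ?_, h3⟩
    rw [h2 s hs, h s hs, Pi.smul_apply, nsmul_eq_mul]
  · rintro ⟨n, hn, m, hm, Z, h1, h2, h3⟩
    refine ⟨n, hn, Z, h1, fun s hs => ?_, ?_⟩
    · rw [h2 s hs, h s hs, Pi.smul_apply, nsmul_eq_mul]
    · have h4 : m = n * r := by exact_mod_cast hm
      rw [h3, h4]

variable {k : Type} [Field k] [NumberField k] {X : Scheme.{0}} (f : X ⟶ Spec (.of (𝓞 k)))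
  (D : ℕ → RankFunctor k) (N : ℕ)

lemma points_eq {K : Type} [Field K] [NumberField K] [Algebra k K] (x : HeightOneSpectrum (𝓞 K) × ℕ+) :
    points f x.1 x.2 = Pool.Agent.Run7.h508.BR.points f (redF (k := k) x.1 (x.2 : ℕ)) :=
  points_sSup f x.1 x.2.pos

lemma logZeta_eq (K : Type) [Field K] [NumberField K] [Algebra k K] (s : ℂ) :
    logZeta f K s = Lam (pw f) K s := by
  refine tsum_congr fun x => ?_
  rw [tm, pw_idx, term, points_eq]

/-- the expected orders as a function of number fields -/
noncomputable def expFun : FieldFun k ℚ :=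
  (FieldFun.pi (fun i : Fin N => (D i).toFun)).comp
    { toFun := fun y => ∑ i : Fin N, (-1) ^ ((i : ℕ) + 1) * y i
      map_zero' := by simp
      map_add' := fun x y => by
        rw [← Finset.sum_add_distrib]
        exact Finset.sum_congr rfl fun i _ => by rw [Pi.add_apply, mul_add] }

lemma expFun_f (K : Type) [Field K] [NumberField K] [Algebra k K] :
    (expFun D N).f K = (expected D N K : ℚ) := by
  change ∑ i : Fin N, (-1) ^ ((i : ℕ) + 1) * ((D i).rank K : ℚ) = _
  rw [expected, ← Fin.sum_univ_eq_sum_range (fun i => (-1) ^ (i + 1) * ((D i).rank K : ℤ)) N]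
  push_cast
  rfl

variable {C β : ℝ} (ha : ∀ x, ‖pw f x‖ ≤ C * (Ideal.absNorm x.1.asIdeal : ℝ) ^ ((β - 1) * (x.2 : ℕ)))

/-- the pair of the logarithm and the expected order, modulo the conjecture -/
noncomputable def defect : FieldFun k (((ℂ → ℂ) × ℚ) ⧸ oSub β 0) :=
  ((gfun (pw f) ha).pair (expFun D N)).comp (oSub β 0).mkQ.toAddMonoidHom

open Classical in
/-- the pair -/
noncomputable def vec (β : ℝ) (K : Type) [Field K] [NumberField K] [Algebra k K] : (ℂ → ℂ) × ℚ :=
  (fun s => if (β - 1) + 1 < s.re then Lam (pw f) K s else 0, (expected D N K : ℚ))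

lemma defect_f (K : Type) [Field K] [NumberField K] [Algebra k K] :
    (defect f D N ha).f K = (oSub β 0).mkQ (vec f D N β K) := by
  change (oSub β 0).mkQ (((gfun (pw f) ha).f K, (expFun D N).f K)) = _
  rw [expFun_f]
  rfl

lemma vec_fst (K : Type) [Field K] [NumberField K] [Algebra k K] {s : ℂ} (hs : β < s.re) :
    (vec f D N β K).1 s = logZeta f K s := by
  have h : (β - 1) + 1 < s.re := by linarith
  rw [logZeta_eq]
  exact if_pos h

lemma soule_iff (K : Type) [Field K] [NumberField K] [Algebra k K] :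
    Soule f D N β K ↔ (defect f D N ha).f K = 0 := by
  rw [defect_f, Submodule.mkQ_apply, Submodule.Quotient.mk_eq_zero, mem_oSub, Soule,
    order_iff (l' := (vec f D N β K).1) (fun s hs => (vec_fst f D N K hs).symm)]
  rfl

lemma quot_iff (K L : Type) [Field K] [NumberField K] [Algebra k K] [Field L]
    [NumberField L] [Algebra k L] :
    SouleQuotient f D N β K L ↔ (defect f D N ha).f K = (defect f D N ha).f L := by
  rw [eq_comm, ← sub_eq_zero, defect_f, defect_f, ← map_sub, Submodule.mkQ_apply,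
    Submodule.Quotient.mk_eq_zero, mem_oSub, SouleQuotient,
    order_iff (l' := (vec f D N β L - vec f D N β K).1) (fun s hs => by
      rw [Prod.fst_sub, Pi.sub_apply, vec_fst f D N L hs, vec_fst f D N K hs])]
  have h1 : (vec f D N β L - vec f D N β K).2 = ((expected D N L - expected D N K : ℤ) : ℚ) := by
    push_cast
    rfl
  rw [h1]

lemma noChange_of {m : ℕ} (h : UnramifiedCase f D N β m) : NoChange (defect f D N ha) m := by
  intro K L _ _ _ _ _ _ _ _ _ hK hp hu
  exact (quot_iff f D N ha K L).mp (h K L hK hp (unrSplit_of hu))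

include ha in
/-- the relations -/
lemma relation_of {m : ℕ} (hm : m ≠ 0) (h : UnramifiedCase f D N β m) (K₀ : Type)
    [Field K₀] [NumberField K₀] [Algebra k K₀] (hK₀ : IsTotallyComplex K₀) (ι : Type) [Fintype ι]
    (K : ι → Type) [∀ i, Field (K i)] [∀ i, NumberField (K i)] [∀ i, Algebra k (K i)] (t : ι → ℤ)
    (ht : ∀ v : k →+* ℂ, ∑ i, t i * (realAbove v (K i) : ℤ) = 0) :
    Order β (fun s => ∑ i, t i * (logZeta f (K i) s - logZeta f K₀ s))
      (∑ i, t i * (expected D N (K i) - expected D N K₀)) := by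
  have key := real_formula_int (defect f D N ha) hm (noChange_of f D N ha h) K₀ hK₀ K t ht
  have h1 : ∀ i, t i • ((defect f D N ha).f (K i) - (defect f D N ha).f K₀) =
      (oSub β 0).mkQ (t i • (vec f D N β (K i) - vec f D N β K₀)) := by
    intro i
    rw [defect_f, defect_f, map_zsmul, map_sub]
  rw [Finset.sum_congr rfl (fun i _ => h1 i), ← map_sum, Submodule.mkQ_apply,
    Submodule.Quotient.mk_eq_zero, mem_oSub] at key
  have h2 : (∑ i, t i • (vec f D N β (K i) - vec f D N β K₀)).2 =
      ((∑ i, t i * (expected D N (K i) - expected D N K₀) : ℤ) : ℚ) := by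
    rw [Prod.snd_sum]
    push_cast
    refine Finset.sum_congr rfl fun i _ => ?_
    rw [Prod.smul_snd, zsmul_eq_mul]
    rfl
  rw [h2] at key
  refine (order_iff (fun s hs => ?_)).mpr key
  rw [Prod.fst_sum, Finset.sum_apply]
  refine Finset.sum_congr rfl fun i _ => ?_
  rw [Prod.smul_fst, Pi.smul_apply, zsmul_eq_mul, Prod.fst_sub, Pi.sub_apply,
    vec_fst f D N (K i) hs, vec_fst f D N K₀ hs]

include ha in
lemma iff_of {m : ℕ} (hm : m ≠ 0) (K₀ : Type) [Field K₀] [NumberField K₀]
    [Algebra k K₀] (hK₀ : IsTotallyComplex K₀) (h0 : Soule f D N β K₀)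
    (hv : ∀ v : k →+* ℂ, ComplexEmbedding.IsReal v →
      ∃ (E : Type) (_ : Field E) (_ : NumberField E) (_ : Algebra k E),
        0 < realAbove v E ∧ (∀ v', v' ≠ v → realAbove v' E = 0) ∧ Soule f D N β E) :
    (∀ (K : Type) [Field K] [NumberField K] [Algebra k K], Soule f D N β K) ↔
      UnramifiedCase f D N β m := by
  constructor
  · intro h K L _ _ _ _ _ _ _ _ _ _ _ _
    rw [quot_iff f D N ha, (soule_iff f D N ha K).mp (h K), (soule_iff f D N ha L).mp (h L)]
  · intro h K _ _ _
    rw [soule_iff f D N ha]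
    refine zero_of_real (defect f D N ha) hm (noChange_of f D N ha h) K₀ hK₀
      ((soule_iff f D N ha K₀).mp h0) (fun v hreal => ?_) K
    obtain ⟨E, e1, e2, e3, h1, h2, h3⟩ := hv v hreal
    exact ⟨E, e1, e2, e3, h1, h2, (soule_iff f D N ha E).mp h3⟩

end proof

/-- The statement of the main theorem for the functors `D`: if `UnramifiedCase` holds, the conjecture
holds for the products of the `(ζ(X_{K_i}, s) / ζ(X_{K₀}, s)) ^ t_i` with `∑ t_i r_v(K_i) = 0`. -/
def Relations {k : Type} [Field k] [NumberField k] {X : Scheme.{0}} (f : X ⟶ Spec (.of (𝓞 k)))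
    (D : ℕ → RankFunctor k) (N : ℕ) (β : ℝ) (K₀ : Type) [Field K₀] [NumberField K₀] [Algebra k K₀] :
    Prop :=
  ∀ (ι : Type) [Fintype ι] (K : ι → Type) [∀ i, Field (K i)] [∀ i, NumberField (K i)]
    [∀ i, Algebra k (K i)] (t : ι → ℤ), (∀ v : k →+* ℂ, ∑ i, t i * (realAbove v (K i) : ℤ) = 0) →
    Order β (fun s => ∑ i, t i * (logZeta f (K i) s - logZeta f K₀ s))
      (∑ i, t i * (expected D N (K i) - expected D N K₀))

/-- **Main theorem.** Let `f : X ⟶ Spec (𝓞 k)` be of finite type. For all sufficiently large `β`: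

* the series of `log ζ(X_K, s)` converges absolutely for `Re s > β`, for all `K ⊇ k`;
* if `Order β l r`, and `exp (l s)`, `Re s > β`, itself has a meromorphic continuation, then it has
  order `r` at `s = 0`;
* for all systems `D` of functors with Galois descent, all `N` and `m > 0`, and all totally complex
  `K₀ ⊇ k`: `UnramifiedCase` implies the conjecture for the products of the
  `(ζ(X_{K_i}, s) / ζ(X_{K₀}, s)) ^ t_i` with `∑ t_i r_v(K_i) = 0` for all `v`; and if the conjecture
  holds for `K₀` and for every real place `v` of `k` for a field with real places, all over `v`, then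
  it holds for all `K ⊇ k` if and only if `UnramifiedCase` holds. -/
theorem result (k : Type) [Field k] [NumberField k] (X : Scheme.{0}) (f : X ⟶ Spec (.of (𝓞 k)))
    [LocallyOfFiniteType f] [QuasiCompact f] : ∃ β₀ : ℝ, ∀ β : ℝ, β₀ ≤ β →
    (∀ (K : Type) [Field K] [NumberField K] [Algebra k K] (s : ℂ), β < s.re →
      Summable (term f K s)) ∧
    (∀ (l : ℂ → ℂ) (r : ℤ), Order β l r → ∀ Λ : ℂ → ℂ, MeromorphicOn Λ Set.univ →
      (∀ s : ℂ, β < s.re → Λ s = Complex.exp (l s)) → meromorphicOrderAt Λ 0 = r) ∧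
    ∀ (D : ℕ → RankFunctor k) (N m : ℕ), m ≠ 0 →
      ∀ (K₀ : Type) [Field K₀] [NumberField K₀] [Algebra k K₀], IsTotallyComplex K₀ →
      (UnramifiedCase f D N β m → Relations f D N β K₀) ∧
      (Soule f D N β K₀ → (∀ v : k →+* ℂ, ComplexEmbedding.IsReal v →
          ∃ (E : Type) (_ : Field E) (_ : NumberField E) (_ : Algebra k E),
            0 < realAbove v E ∧ (∀ v', v' ≠ v → realAbove v' E = 0) ∧ Soule f D N β E) →
        ((∀ (K : Type) [Field K] [NumberField K] [Algebra k K], Soule f D N β K) ↔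
          UnramifiedCase f D N β m)) := by
  obtain ⟨C, r, hC⟩ := Pool.Agent.Run7.h508.BR.pw_bound f
  refine ⟨(r : ℝ) + 1, fun β hβ => ?_⟩
  have ha := hC (β - 1) (by linarith)
  refine ⟨fun K _ _ _ s hs => ?_, fun l r h Λ hΛ h1 => ?_, fun D N m hm K₀ _ _ _ hK₀ =>
    ⟨fun h ι _ K _ _ _ t ht => relation_of f D N ha hm h K₀ hK₀ ι K t ht,
      fun h0 hv => iff_of f D N ha hm K₀ hK₀ h0 hv⟩⟩
  · have h1 := Pool.Agent.Run7.h508.BR.summable_g (K := K) (L := K) (fun _ => 1)
      (fun x => Pool.Agent.Run7.h508.BR.pw f (Pool.Agent.K4H74.SC.idx k x))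
      (Pool.Agent.Run7.h508.BR.bound_idx_g (Pool.Agent.Run7.h508.BR.pw f) ha) (s := s) (by linarith)
    refine h1.congr fun x => ?_
    rw [Pool.Agent.Run7.h508.BR.logTerm_one, mul_one_div, Pool.Agent.Run7.h508.BR.pw_idx, term,
      points_eq]
  · exact ((order_iff (fun s _ => rfl)).mp h).order hΛ h1

end Pool.Agent.Results.MP_f3836a_nt.UnramifiedBaseChange
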